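import Pool.Agent.H93.EN.Targets4
import Pool.Agent.H93.BL.Final

/-!
Row FLO of the board en_modules (`MP_009700_an`): two sided trapped phase points form a null set if
the mean of the indicator function vanishes almost everywhere.
-/

set_option autoImplicit false

open MeasureTheory Set Metric Filter Topology Pool.Agent.H93.EN
open Pool.Agent.H93.BL hiding T_B1 T_B2 T_B3 T_SB T_SC

namespace Pool.Agent.H33.EN.FLO

/-- an affine parametrisation of the plane by two independent directions pulls back null sets to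
null sets -/
lemma ae_affine (p u d : ℂ) (h : cr u d ≠ 0) (Q : ℂ → Prop) (hQ : ∀ᵐ x : ℂ, Q x) :
    ∀ᵐ z : ℝ × ℝ, Q (p + ((z.1 : ℝ) : ℂ) * u + ((z.2 : ℝ) : ℂ) * d) := by
  let L0 : ℝ × ℝ →ₗ[ℝ] ℂ :=
    { toFun := fun z => ((z.1 : ℝ) : ℂ) * u + ((z.2 : ℝ) : ℂ) * d
      map_add' := fun a b => by
        simp only [Prod.fst_add, Prod.snd_add, Complex.ofReal_add]; ring
      map_smul' := fun c a => by
        simp only [Prod.smul_fst, Prod.smul_snd, smul_eq_mul, Complex.ofReal_mul,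
          RingHom.id_apply, Complex.real_smul]; ring }
  have hinj : Function.Injective L0 := by
    rw [← LinearMap.ker_eq_bot, LinearMap.ker_eq_bot']
    rintro ⟨s, t⟩ hz
    have hz' : ((s : ℝ) : ℂ) * u + ((t : ℝ) : ℂ) * d = 0 := hz
    have h1 : cr u (((s : ℝ) : ℂ) * u + ((t : ℝ) : ℂ) * d) = 0 := by rw [hz', cr_zero_right]
    rw [cr_add_right, cr_smul_right, cr_smul_right, cr_self, mul_zero, zero_add] at h1
    have ht : t = 0 := (mul_eq_zero.1 h1).resolve_right h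
    have h2 : cr (((s : ℝ) : ℂ) * u + ((t : ℝ) : ℂ) * d) d = 0 := by rw [hz', cr_zero_left]
    rw [cr_add_left, cr_smul_left, cr_smul_left, cr_self, mul_zero, add_zero] at h2
    have hs : s = 0 := (mul_eq_zero.1 h2).resolve_right h
    rw [hs, ht]; rfl
  have hdim : Module.finrank ℝ (ℝ × ℝ) = Module.finrank ℝ ℂ := by
    rw [Module.finrank_prod, Module.finrank_self, Complex.finrank_real_complex]
  let L : (ℝ × ℝ) ≃L[ℝ] ℂ :=
    (LinearMap.linearEquivOfInjective L0 hinj hdim).toContinuousLinearEquiv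
  have hL : ∀ z, L z = L0 z := fun z => rfl
  have hac : Measure.map L (volume : Measure (ℝ × ℝ)) ≪ (volume : Measure ℂ) := by
    have : (Measure.map L (volume : Measure (ℝ × ℝ))).IsAddHaarMeasure :=
      L.isAddHaarMeasure_map volume
    exact Measure.absolutelyContinuous_isAddHaarMeasure _ _
  have hQ' : ∀ᵐ y : ℂ, Q (p + y) :=
    (measurePreserving_add_left volume p).quasiMeasurePreserving.ae hQ
  have h3 : ∀ᵐ z : ℝ × ℝ, Q (p + L z) := by
    have h4 : ∀ᵐ y ∂(Measure.map L (volume : Measure (ℝ × ℝ))), Q (p + y) := hac.ae_le hQ'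
    exact ae_of_ae_map L.continuous.aemeasurable h4
  filter_upwards [h3] with z hz
  have e : p + L z = p + ((z.1 : ℝ) : ℂ) * u + ((z.2 : ℝ) : ℂ) * d := by
    rw [hL]
    change p + (((z.1 : ℝ) : ℂ) * u + ((z.2 : ℝ) : ℂ) * d) = _
    ring
  rw [← e]
  exact hz

/-- vanishing circle averages, rotated -/
lemma ae_of_av (g : ℂ → ℝ) (hg : Measurable g) (h0 : ∀ w, 0 ≤ g w ∧ g w ≤ 1) (hav : av g = 0)
    (n : ℂ) (hn : ‖n‖ = 1) :
    ∀ᵐ (φ : ℝ) ∂(volume.restrict (Ioc (-Real.pi) Real.pi)),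
      g (n * Complex.exp ((φ : ℂ) * Complex.I)) = 0 := by
  set c : ℝ := Complex.arg n with hc
  have hnc : n = Complex.exp ((c : ℂ) * Complex.I) := by
    have h1 := Complex.norm_mul_exp_arg_mul_I n
    rw [hn, Complex.ofReal_one, one_mul] at h1
    exact h1.symm
  set h : ℝ → ℝ := fun θ => g (Complex.exp ((θ : ℂ) * Complex.I)) with hh
  have hper : Function.Periodic h (2 * Real.pi) := by
    intro θ
    simp only [hh]
    congr 1
    have e : (((θ + 2 * Real.pi : ℝ) : ℂ)) * Complex.I =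
        (θ : ℂ) * Complex.I + 2 * (Real.pi : ℂ) * Complex.I := by
      push_cast; ring
    rw [e, Complex.exp_add, Complex.exp_two_pi_mul_I, mul_one]
  have hint : ∫ θ in (0 : ℝ)..(2 * Real.pi), h θ = 0 := by
    have h1 : (2 * Real.pi)⁻¹ * ∫ θ in (0 : ℝ)..(2 * Real.pi), h θ = 0 := hav
    rcases mul_eq_zero.1 h1 with h2 | h2
    · exact absurd h2 (inv_ne_zero (by positivity))
    · exact h2
  have h2 : ∀ φ : ℝ, g (n * Complex.exp ((φ : ℂ) * Complex.I)) = h (φ + c) := by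
    intro φ
    simp only [hh]
    congr 1
    rw [hnc, ← Complex.exp_add]
    congr 1
    push_cast; ring
  have h3 : ∫ φ in (-Real.pi)..Real.pi, g (n * Complex.exp ((φ : ℂ) * Complex.I)) = 0 := by
    simp only [h2]
    rw [intervalIntegral.integral_comp_add_right]
    have h4 := hper.intervalIntegral_add_eq (-Real.pi + c) 0
    rw [zero_add] at h4
    have e : -Real.pi + c + 2 * Real.pi = Real.pi + c := by ring
    rw [e] at h4
    rw [h4, hint]
  have hmeas : Measurable fun φ : ℝ => g (n * Complex.exp ((φ : ℂ) * Complex.I)) :=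
    hg.comp (by fun_prop)
  have hii : IntervalIntegrable (fun φ : ℝ => g (n * Complex.exp ((φ : ℂ) * Complex.I))) volume
      (-Real.pi) Real.pi := by
    refine (intervalIntegrable_const (c := (1 : ℝ))).mono_fun hmeas.aestronglyMeasurable ?_
    refine Filter.Eventually.of_forall fun φ => ?_
    simp only [Real.norm_eq_abs, abs_one]
    rw [abs_of_nonneg (h0 _).1]
    exact (h0 _).2
  have h5 := (intervalIntegral.integral_eq_zero_iff_of_le_of_nonneg_ae
    (by linarith [Real.pi_pos] : -Real.pi ≤ Real.pi)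
    (Filter.Eventually.of_forall fun φ => (h0 _).1) hii).1 h3
  filter_upwards [h5] with φ hφ
  exact hφ

/-- (FLO) two sided trapped phase points form a null set if the mean vanishes almost everywhere -/
theorem flo (h1 : T_FL1) (h2 : T_INM) : T_FLO := by
  intro ι _ P E U hU hUΩ hav i
  have hFm : Measurable (Function.uncurry (FE P E U)) := h2 ι P E U hU hUΩ
  have hF01 : ∀ y w, 0 ≤ FE P E U y w ∧ FE P E U y w ≤ 1 := by
    intro y w
    unfold FE
    split_ifs <;> norm_num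
  -- the directions
  let D : ℝ → ℂ := fun φ => P.n i * Complex.exp ((φ : ℂ) * Complex.I)
  have hDc : Continuous D := by
    change Continuous fun φ : ℝ => P.n i * Complex.exp ((φ : ℂ) * Complex.I)
    fun_prop
  -- (A)
  have hx : ∀ᵐ x : ℂ, ∀ᵐ (φ : ℝ) ∂(volume.restrict (Ioc (-Real.pi) Real.pi)), FE P E U x (D φ) = 0 := by
    rw [ae_restrict_iff' P.isOpen.measurableSet] at hav
    filter_upwards [hav] with x hx
    by_cases hxΩ : x ∈ P.Ω
    · have hm : Measurable (FE P E U x) := hFm.comp (measurable_const.prodMk measurable_id)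
      exact ae_of_av (FE P E U x) hm (hF01 x) (hx hxΩ) (P.n i) (P.norm_n i)
    · refine Filter.Eventually.of_forall fun φ => ?_
      unfold FE
      rw [if_neg (fun h => hxΩ h.1)]
  have hmA : MeasurableSet {z : ℂ × ℝ | FE P E U z.1 (D z.2) = 0} := by
    have : Measurable fun z : ℂ × ℝ => FE P E U z.1 (D z.2) :=
      hFm.comp (measurable_fst.prodMk (hDc.measurable.comp measurable_snd))
    exact this (measurableSet_singleton 0)
  have hA : ∀ᵐ (φ : ℝ) ∂(volume.restrict (Ioc (-Real.pi) Real.pi)), ∀ᵐ x : ℂ,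
      FE P E U x (D φ) = 0 := (Measure.ae_ae_comm hmA).1 hx
  -- (B)
  rw [ae_restrict_iff' measurableSet_Ioc] at hA
  have hB : ∀ᵐ φ : ℝ, φ ∈ Ioo (-(Real.pi / 2)) (Real.pi / 2) → ∀ᵐ s : ℝ, ∀ᵐ t : ℝ,
      FE P E U (P.pos (i, s, φ) + (t : ℂ) * P.dir (i, s, φ)) (P.dir (i, s, φ)) = 0 := by
    filter_upwards [hA] with φ hφ hφ2
    have h3 := hφ ⟨by linarith [hφ2.1, Real.pi_pos], by linarith [hφ2.2, Real.pi_pos]⟩
    have hcr : cr (P.u i) (D φ) ≠ 0 := by
      have h4 : cr (P.u i) (D φ) = Real.cos φ := by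
        have e : D φ = ((Real.cos φ : ℝ) : ℂ) * P.n i - ((Real.sin φ : ℝ) : ℂ) * P.u i := by
          change P.n i * Complex.exp ((φ : ℂ) * Complex.I) = _
          rw [Complex.exp_mul_I, Polygon.n]
          push_cast
          ring_nf
          rw [Complex.I_sq]
          ring
        rw [e, cr_sub_right, cr_smul_right, cr_smul_right, cr_self, ← P.ip_n, P.ip_n_n]
        ring
      rw [h4]
      exact (Real.cos_pos_of_mem_Ioo hφ2).ne'
    have h5 := ae_affine (P.p i) (P.u i) (D φ) hcr (fun x => FE P E U x (D φ) = 0) h3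
    exact Measure.ae_ae_of_ae_prod h5
  -- (C)
  let W : Set ((ℝ × ℝ) × ℝ) := {y | FE P E U (P.pos (i, y.1.1, y.1.2) +
    ((y.2 : ℝ) : ℂ) * P.dir (i, y.1.1, y.1.2)) (P.dir (i, y.1.1, y.1.2)) ≠ 0}
  have hWm : MeasurableSet W := by
    have hc : Continuous fun y : (ℝ × ℝ) × ℝ => (P.pos (i, y.1.1, y.1.2) +
        ((y.2 : ℝ) : ℂ) * P.dir (i, y.1.1, y.1.2), P.dir (i, y.1.1, y.1.2)) := by
      change Continuous fun y : (ℝ × ℝ) × ℝ => (P.p i + ((y.1.1 : ℝ) : ℂ) * P.u i +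
        ((y.2 : ℝ) : ℂ) * (P.n i * Complex.exp (((y.1.2 : ℝ) : ℂ) * Complex.I)),
          P.n i * Complex.exp (((y.1.2 : ℝ) : ℂ) * Complex.I))
      fun_prop
    have h3 : Measurable fun y : (ℝ × ℝ) × ℝ => FE P E U (P.pos (i, y.1.1, y.1.2) +
        ((y.2 : ℝ) : ℂ) * P.dir (i, y.1.1, y.1.2)) (P.dir (i, y.1.1, y.1.2)) :=
      hFm.comp hc.measurable
    exact (h3 (measurableSet_singleton 0)).compl
  let Q : ℝ × ℝ → Prop := fun z => z.2 ∈ Ioo (-(Real.pi / 2)) (Real.pi / 2) →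
    volume (Prod.mk z ⁻¹' W) = 0
  have hQm : MeasurableSet {z : ℝ × ℝ | Q z} := by
    have h3 : Measurable fun z : ℝ × ℝ => volume (Prod.mk z ⁻¹' W) :=
      measurable_measure_prodMk_left hWm
    have h4 : {z : ℝ × ℝ | Q z} = (Prod.snd ⁻¹' (Ioo (-(Real.pi / 2)) (Real.pi / 2)))ᶜ ∪
        (fun z : ℝ × ℝ => volume (Prod.mk z ⁻¹' W)) ⁻¹' {0} := by
      ext z
      simp only [Q, mem_ofPred_eq, mem_union, mem_compl_iff, mem_preimage, mem_singleton_iff]
      tauto
    rw [h4]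
    exact ((measurable_snd measurableSet_Ioo).compl).union (h3 (measurableSet_singleton 0))
  have hQ1 : ∀ᵐ φ : ℝ, ∀ᵐ s : ℝ, Q (s, φ) := by
    filter_upwards [hB] with φ hφ
    by_cases hφ2 : φ ∈ Ioo (-(Real.pi / 2)) (Real.pi / 2)
    · filter_upwards [hφ hφ2] with s hs _
      rw [ae_iff] at hs
      exact hs
    · exact Filter.Eventually.of_forall fun s h => absurd h hφ2
  have hQ2 : ∀ᵐ s : ℝ, ∀ᵐ φ : ℝ, Q (s, φ) := (Measure.ae_ae_comm hQm).2 hQ1
  have hQ3 : ∀ᵐ z : ℝ × ℝ, Q z := (Measure.ae_prod_iff_ae_ae hQm).2 hQ2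
  -- the conclusion
  rw [ae_iff]
  have hM0 := (Pool.Agent.H93.BL.Final.pM0 ι P i {z | ¬¬ ∃ f : ℤ → ι × ℝ × ℝ, f 0 = (i, z) ∧
    ∀ n, P.Step (f n) (f (n + 1)) ∧ (f n).1 ∉ E ∧ ¬ Sg P U (P.pos (f n)) (P.dir (f n))}).1
  rw [hM0]
  refine measure_mono_null ?_ (ae_iff.1 hQ3)
  rintro ⟨s, φ⟩ ⟨hz, hbox⟩ hq
  obtain ⟨f, hf0, hf⟩ := not_not.1 hz
  have hφ : φ ∈ Ioo (-(Real.pi / 2)) (Real.pi / 2) := hbox.2
  have hq0 : volume (Prod.mk (s, φ) ⁻¹' W) = 0 := hq hφ
  obtain ⟨T, hT, hTf⟩ := h1 ι P E U hUΩ f hf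
  rw [hf0] at hTf
  have hsub : Ioo 0 T ⊆ Prod.mk (s, φ) ⁻¹' W := by
    intro t ht
    change FE P E U (P.pos (i, s, φ) + (t : ℂ) * P.dir (i, s, φ)) (P.dir (i, s, φ)) ≠ 0
    rw [hTf t ht]
    exact one_ne_zero
  have h6 : volume (Ioo 0 T) = 0 := measure_mono_null hsub hq0
  rw [Real.volume_Ioo, sub_zero, ENNReal.ofReal_eq_zero] at h6
  linarith

end Pool.Agent.H33.EN.FLO

namespace Pool.Agent.H33.EN

/-- (FLO) two sided trapped phase points form a null set if the mean vanishes almost everywhere -/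
theorem flo (h1 : T_FL1) (h2 : T_INM) : T_FLO := FLO.flo h1 h2

end Pool.Agent.H33.EN
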